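import Mathlib
set_option autoImplicit false
open Finset
namespace Pool.Agent.Results.MP_e70d00_co.Dense

def coset {n t : ℕ} (a b : Fin t ↪ Fin n) : Finset (Equiv.Perm (Fin n)) :=
  univ.filter fun σ => ∀ i, σ (a i) = b i

def ind {n : ℕ} (A : Finset (Equiv.Perm (Fin n))) : Equiv.Perm (Fin n) → ℝ :=
  fun σ => if σ ∈ A then 1 else 0

def U (n t : ℕ) : Submodule ℝ (Equiv.Perm (Fin n) → ℝ) :=
  Submodule.span ℝ {f | ∃ a b : Fin t ↪ Fin n, f = ind (coset a b)}

noncomputable def E {n : ℕ} (f : Equiv.Perm (Fin n) → ℝ) : ℝ := (∑ σ, f σ) / n.factorial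

lemma memU {n : ℕ} (a : Fin 2 ↪ Fin n) (φ : Fin n → Fin n → ℝ) :
    (fun σ : Equiv.Perm (Fin n) => φ (σ (a 0)) (σ (a 1))) ∈ U n 2 := by
  have : (fun σ : Equiv.Perm (Fin n) => φ (σ (a 0)) (σ (a 1))) =
      ∑ b : Fin 2 ↪ Fin n, φ (b 0) (b 1) • ind (coset a b) := by
    ext σ
    rw [Finset.sum_apply, sum_eq_single (a.trans σ.toEmbedding)]
    · simp [ind, coset]
    · intro b _ hb
      have : ¬∀ i, σ (a i) = b i := fun h => hb (Function.Embedding.ext fun i => (h i).symm)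
      simp only [ind, coset, mem_filter, mem_univ, true_and, Pi.smul_apply, if_neg this, smul_zero]
    · simp
  rw [this]
  exact Submodule.sum_mem _ fun b _ => Submodule.smul_mem _ _ (Submodule.subset_span ⟨a, b, rfl⟩)

def pr {n : ℕ} (i j : Fin n) (h : i ≠ j) : Fin 2 ↪ Fin n :=
  ⟨![i, j], fun x y e => by fin_cases x <;> fin_cases y <;> simp_all [eq_comm]⟩

def v (m : ℕ) (i : Fin 3) : Fin (2 * m + 8) := ⟨i.1, by omega⟩

def AA (m : ℕ) : Finset (Equiv.Perm (Fin (2 * m + 8))) :=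
  univ.filter fun σ => ∀ i j, (σ (v m i)).1 < m + 4 ↔ (σ (v m j)).1 < m + 4

lemma AU (m : ℕ) : ind (AA m) ∈ U (2 * m + 8) 2 := by
  let x : Fin (2 * m + 8) → ℝ := fun b => if b.1 < m + 4 then 1 else 0
  have h1 := memU (pr (v m 0) (v m 1) (by simp [v])) fun p q => 1 - x p - x q + x p * x q
  have h2 := memU (pr (v m 0) (v m 2) (by simp [v])) fun p q => - x q + x p * x q
  have h3 := memU (pr (v m 1) (v m 2) (by simp [v])) fun p q => x p * x q
  refine (congrArg (· ∈ U (2 * m + 8) 2) ?_).mp (add_mem (add_mem h1 h2) h3)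
  ext σ
  simp only [pr, Function.Embedding.coeFn_mk, Matrix.cons_val_zero, Matrix.cons_val_one,
    Pi.add_apply, ind, AA, mem_filter, mem_univ, true_and, Fin.forall_fin_succ, x,
    Fin.succ_zero_eq_one, Fin.succ_one_eq_two, IsEmpty.forall_iff]
  by_cases a : (σ (v m 0)).1 < m + 4 <;> by_cases b : (σ (v m 1)).1 < m + 4 <;>
    by_cases c : (σ (v m 2)).1 < m + 4 <;> simp [a, b, c]

lemma half (m : ℕ) (p : Prop) [Decidable p] :
    m + 4 ≤ (univ.filter fun b : Fin (2 * m + 8) => ¬(b.1 < m + 4 ↔ p)).card := by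
  refine (card_range (m + 4)).ge.trans <| card_le_card_of_injOn (fun k => if h : k < m + 4 then
    (if p then ⟨m + 4 + k, by omega⟩ else ⟨k, by omega⟩) else (⟨0, by omega⟩ : Fin (2 * m + 8))) (fun k hk => ?_)
    fun k hk l hl e => ?_
  · rw [coe_range, Set.mem_Iio] at hk
    by_cases hp : p <;> simp [hk, hp]
  · rw [coe_range, Set.mem_Iio] at hk hl
    by_cases hp : p <;> simpa [hk, hl, hp] using e

lemma far (m : ℕ) (I : Finset ((Fin 2 ↪ Fin (2 * m + 8)) × (Fin 2 ↪ Fin (2 * m + 8)))) :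
    (AA m).card ≤ 12 * (symmDiff (AA m) (I.biUnion fun p => coset p.1 p.2)).card := by
  set C := I.biUnion fun p => coset p.1 p.2 with hC
  let T (σ : Equiv.Perm (Fin (2 * m + 8))) : Finset (Fin 3 × Fin (2 * m + 8)) :=
    univ.filter fun q => σ * Equiv.swap (v m q.1) q.2 ∈ C \ AA m
  have h1 (σ) (hσ : σ ∈ AA m ∩ C) : m + 2 ≤ (T σ).card := by
    obtain ⟨hA, hc⟩ := mem_inter.1 hσ
    obtain ⟨p, hp, hc⟩ := mem_biUnion.1 hc
    simp only [AA, coset, mem_filter, mem_univ, true_and] at hA hc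
    obtain ⟨i, hi⟩ : ∃ i, v m i ≠ p.1 0 ∧ v m i ≠ p.1 1 := by
      by_contra! k
      have k0 := k 0
      have k1 := k 1
      have k2 := k 2
      simp only [v, ne_eq, Fin.ext_iff, Fin.val_zero, Fin.val_one, Fin.val_two] at k0 k1 k2
      omega
    have a1 := half m ((σ (v m i)).1 < m + 4)
    have a2 := le_card_sdiff ({σ (p.1 0), σ (p.1 1)} : Finset _)
      (univ.filter fun b : Fin (2 * m + 8) => ¬(b.1 < m + 4 ↔ (σ (v m i)).1 < m + 4))
    have a3 := card_le_two (a := σ (p.1 0)) (b := σ (p.1 1))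
    refine le_trans (by omega) (card_le_card_of_injOn (s := (univ.filter fun b : Fin (2 * m + 8) =>
      ¬(b.1 < m + 4 ↔ (σ (v m i)).1 < m + 4)) \ {σ (p.1 0), σ (p.1 1)}) (fun b => (i, σ.symm b))
      (fun b hb => ?_) fun b _ c _ e => σ.symm.injective (congrArg Prod.snd e))
    simp only [coe_sdiff, coe_filter, mem_univ, true_and, Set.mem_sdiff, Set.mem_ofPred_eq,
      coe_insert, coe_singleton, Set.mem_insert_iff, Set.mem_singleton_iff, not_or] at hb
    obtain ⟨j, rfl⟩ := σ.surjective b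
    simp only [T, coe_filter, mem_univ, true_and, Set.mem_ofPred_eq, mem_sdiff,
      Equiv.symm_apply_apply]
    refine ⟨mem_biUnion.2 ⟨p, hp, mem_filter.2 ⟨mem_univ _, fun k => ?_⟩⟩, fun k => ?_⟩
    · rw [Equiv.Perm.mul_apply, Equiv.swap_apply_of_ne_of_ne, hc]
      · fin_cases k
        exacts [hi.1.symm, hi.2.symm]
      · fin_cases k
        exacts [fun e => hb.2.1 (e ▸ rfl), fun e => hb.2.2 (e ▸ rfl)]
    · obtain ⟨i', hi'⟩ := exists_ne i
      have := (mem_filter.1 k).2 i i'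
      rw [Equiv.Perm.mul_apply, Equiv.Perm.mul_apply, Equiv.swap_apply_left,
        Equiv.swap_apply_of_ne_of_ne (fun e => hi' (Fin.ext (by simpa [v] using e)))
          (fun e : v m i' = j => hb.1 (e ▸ hA i' i))] at this
      exact hb.1 (this.trans (hA i' i))
  have h2 : ((AA m ∩ C).sigma T).card ≤ ((C \ AA m) ×ˢ (univ : Finset (Fin 3 × Fin (2 * m + 8)))).card := by
    refine card_le_card_of_injOn (fun q => (q.1 * Equiv.swap (v m q.2.1) q.2.2, q.2))
      (fun q hq => ?_) fun q _ q' _ e => ?_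
    · exact mem_coe.2 (mem_product.2 ⟨(mem_filter.1 (mem_sigma.1 hq).2).2, mem_univ _⟩)
    · obtain ⟨s, q⟩ := q
      obtain ⟨s', q'⟩ := q'
      simp only [Prod.mk.injEq] at e
      obtain ⟨e, rfl⟩ := e
      rw [mul_right_cancel e]
  rw [card_sigma, card_product] at h2
  have h3 := (card_nsmul_le_sum _ _ _ h1).trans h2
  simp only [smul_eq_mul, card_univ, Fintype.card_prod, Fintype.card_fin] at h3
  have h4 : (AA m ∩ C).card ≤ 12 * (C \ AA m).card := by nlinarith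
  have h5 := card_sdiff_add_card_inter (AA m) C
  rw [symmDiff_def, sup_eq_union, card_union_of_disjoint disjoint_sdiff_sdiff]
  omega

theorem result : ¬∃ C₀ : ℝ, ∀ (n : ℕ) (ε : ℝ), 2 ≤ n → 0 < ε →
    ∀ (A : Finset (Equiv.Perm (Fin n))) (g : Equiv.Perm (Fin n) → ℝ),
      g ∈ U n 2 → (∀ u ∈ U n 2, E (fun σ => (ind A σ - g σ) * u σ) = 0) →
      E (fun σ => (ind A σ - g σ) ^ 2) ≤ ε * E (ind A) →
      ∃ I : Finset ((Fin 2 ↪ Fin n) × (Fin 2 ↪ Fin n)),
        ((symmDiff A (I.biUnion fun p => coset p.1 p.2)).card : ℝ) ≤ C₀ * (ε + 1 / n) * A.card := by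
  rintro ⟨C, h⟩
  obtain ⟨m, hm⟩ := exists_nat_gt (24 * C)
  have p : (0 : ℝ) < (2 * m + 8 : ℕ) := by positivity
  obtain ⟨I, hI⟩ := h (2 * m + 8) (1 / (2 * m + 8 : ℕ)) (by omega) (by positivity)
    (AA m) _ (AU m) (by simp [E]) (by
      simp only [sub_self, E, ind]
      simp
      positivity)
  have a : (0 : ℝ) < (AA m).card := Nat.cast_pos.2 (card_pos.2 ⟨1, by
    simp only [AA, mem_filter, mem_univ, true_and, v, Equiv.Perm.coe_one, id]
    omega⟩)
  have b : ((AA m).card : ℝ) ≤ _ := Nat.cast_le.2 (far m I)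
  have c : C * (1 / (2 * m + 8 : ℕ) + 1 / (2 * m + 8 : ℕ)) < 1 / 12 := by
    rw [← add_div, ← mul_div_assoc, div_lt_iff₀ p]
    push_cast
    linarith [Nat.cast_nonneg (α := ℝ) m]
  push_cast at b
  nlinarith

end Pool.Agent.Results.MP_e70d00_co.Dense
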